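import Pool.Agent.Y136.DS.Out
import Pool.Agent.Results.MP_546dcb_an.NontrivialSpectrum

/-!
# MP_546dcb_an: unicellular operators whose spectrum is a given disc

On every complex separable infinite-dimensional Hilbert space `H` and for every closed disc
`closedBall c r` with `r > 0` there are an orthonormal basis `b 0, b 1, …` of `H` and a bounded
operator `A` such that

* the closed subspaces invariant under `A` are exactly `0` and the spaces
  `M_n = {x | ⟪b j, x⟫ = 0 for all j < n}`, `n = 0, 1, 2, …` (so `A` is unicellular, and every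
  nonzero invariant subspace has finite codimension);
* the spectrum of `A` is exactly the disc `closedBall c r`.

The operator is `2 r A₀ + (c - r)`, where `A₀` is the operator of the starting result of this
problem (for which only `0, 1 ∈ σ(A₀)` was known); its spectrum is the disc with the diameter
`[0, 1]`.
-/

set_option autoImplicit false
open Finset
open scoped ENNReal NNReal InnerProductSpace Pointwise

namespace Pool.Agent.Results.MP_546dcb_an.DiscSpectrum

open Pool.Agent.Helper328.Uni Pool.Agent.Y136.DS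
open Pool.Agent.Results.MP_546dcb_an.NontrivialSpectrum (exists_m exists_G0 countable_index)

/-- the parameters of the construction -/
theorem exists_G : ∃ (G : ℕ → ℕ) (hG : ∀ n, 2 ≤ G n) (hmono : Monotone G), (∀ n, n ≤ G n) ∧
    Approx G hG hmono := by
  classical
  choose m hm0 hm1 using exists_m
  choose Cf hCf0 hCf using corner_poly
  have hd : ∀ N, 0 < del N / 2 := fun N => by unfold del; positivity
  set CN : ℕ → ℝ := fun N => ∑ i ∈ range N, Cf (pP (i + 1) N (m N)) with hCN
  have hCN0 : ∀ N, 0 ≤ CN N := fun N => Finset.sum_nonneg fun i _ => hCf0 _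
  choose g0 hg0 using fun N => exists_G0 (CN N) (del N / 2) (hd N) (m N)
  set G : ℕ → ℕ := fun N => N + 2 + ∑ k ∈ range (N + 1), g0 k with hGdef
  have hG : ∀ n, 2 ≤ G n := fun n => by
    have : G n = n + 2 + ∑ k ∈ range (n + 1), g0 k := rfl
    omega
  have hmono : Monotone G := by
    apply monotone_nat_of_le_succ
    intro n
    have e1 : G n = n + 2 + ∑ k ∈ range (n + 1), g0 k := rfl
    have e2 : G (n + 1) = n + 1 + 2 + (∑ k ∈ range (n + 1), g0 k + g0 (n + 1)) := by
      change n + 1 + 2 + ∑ k ∈ range (n + 1 + 1), g0 k = _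
      rw [Finset.sum_range_succ]
    omega
  have hid : ∀ n, n ≤ G n := fun n => by
    have : G n = n + 2 + ∑ k ∈ range (n + 1), g0 k := rfl
    omega
  have hge : ∀ n, g0 n ≤ G n := fun n => by
    have h1 : G n = n + 2 + ∑ k ∈ range (n + 1), g0 k := rfl
    have h2 : g0 n ≤ ∑ k ∈ range (n + 1), g0 k :=
      Finset.single_le_sum (f := g0) (fun k _ => Nat.zero_le _)
        (Finset.mem_range.mpr (Nat.lt_succ_self n))
    omega
  refine ⟨G, hG, hmono, hid, ?_⟩
  intro N hN i hi1 hi2
  obtain ⟨j, rfl⟩ : ∃ j, i = j + 1 := ⟨i - 1, by omega⟩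
  refine ⟨pP (j + 1) N (m N), fun x => ?_⟩
  obtain ⟨b1, b2⟩ := hg0 N (G N) (hge N)
  have hr : Real.sqrt (rho2 G N) ^ (m N) ≤ 2 := b1
  refine (key_approx hG hmono N (m N) j (hm0 N) hN hr hi2 (Cf (pP (j + 1) N (m N)))
    (hCf (pP (j + 1) N (m N))) x).trans ?_
  apply mul_le_mul_of_nonneg_right _ (norm_nonneg _)
  have h1 : Cf (pP (j + 1) N (m N)) ≤ CN N :=
    Finset.single_le_sum (f := fun i => Cf (pP (i + 1) N (m N))) (fun i _ => hCf0 _)
      (Finset.mem_range.mpr (by omega))
  have h2 : Cf (pP (j + 1) N (m N)) * (1 / (G N : ℝ)) ≤ CN N * (1 / (G N : ℝ)) :=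
    mul_le_mul_of_nonneg_right h1 (by positivity)
  have h3 := hm1 N
  linarith

/-- the closed invariant subspaces of the operator on `ℓ²` -/
theorem lat {G : ℕ → ℕ} (hG : ∀ n, 2 ≤ G n) (hm : Monotone G) (hap : Approx G hG hm)
    (W : Submodule ℂ HH) (hWc : IsClosed (W : Set HH)) :
    (∀ x ∈ W, TT G hG hm x ∈ W) ↔ W = ⊥ ∨ ∃ n, ∀ x, x ∈ W ↔ Low n x := by
  classical
  constructor
  · intro hW
    by_cases hex : ∃ n, ∃ f ∈ W, f n ≠ 0
    · right
      obtain ⟨f, hfW, hfn⟩ := Nat.find_spec hex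
      have hmin : ∀ x ∈ W, Low (Nat.find hex) x := by
        intro x hx j hj
        by_contra hne
        exact Nat.find_min hex hj ⟨x, hx, hne⟩
      exact ⟨Nat.find hex, fun x => ⟨hmin x,
        contains hG hm hap W hWc hW f hfW _ (hmin f hfW) hfn x⟩⟩
    · left
      push Not at hex
      rw [Submodule.eq_bot_iff]
      intro x hx
      ext j
      exact hex j x hx
  · rintro (rfl | ⟨n, hn⟩) x hx
    · rw [Submodule.mem_bot] at hx ⊢
      rw [hx, map_zero]
    · rw [hn] at hx ⊢
      exact low_TT hG hm hx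

/-- **Unicellular operators whose spectrum is a given disc.** -/
theorem result {H : Type*} [NormedAddCommGroup H] [InnerProductSpace ℂ H] [CompleteSpace H]
    [TopologicalSpace.SeparableSpace H] (hH : ¬ FiniteDimensional ℂ H) (c : ℂ) (r : ℝ)
    (hr : 0 < r) :
    ∃ (A : H →L[ℂ] H) (b : HilbertBasis ℕ ℂ H),
      (∀ M : Submodule ℂ H, IsClosed (M : Set H) →
        ((∀ x ∈ M, A x ∈ M) ↔ M = ⊥ ∨ ∃ n : ℕ, ∀ x, x ∈ M ↔ ∀ j < n, ⟪b j, x⟫_ℂ = 0)) ∧
      (∀ M N : Submodule ℂ H, IsClosed (M : Set H) → IsClosed (N : Set H) →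
        (∀ x ∈ M, A x ∈ M) → (∀ x ∈ N, A x ∈ N) → M ≤ N ∨ N ≤ M) ∧
      spectrum ℂ A = Metric.closedBall c r := by
  -- an orthonormal basis indexed by the natural numbers
  obtain ⟨w, b, -⟩ := exists_hilbertBasis ℂ H
  have hc : Countable w := countable_index b b.orthonormal
  have hinf : Infinite w := by
    by_contra hfin
    rw [not_infinite_iff_finite] at hfin
    have : Fintype w := Fintype.ofFinite w
    exact hH (Module.Basis.finiteDimensional_of_finite b.toOrthonormalBasis.toBasis)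
  obtain ⟨hden⟩ := nonempty_denumerable w
  let eq : ℕ ≃ w := (Denumerable.eqv w).symm
  have hv : Orthonormal ℂ (fun n => b (eq n)) := b.orthonormal.comp _ eq.injective
  have hsp : ⊤ ≤ (Submodule.span ℂ (Set.range fun n => b (eq n))).topologicalClosure := by
    have h1 : (Set.range fun n => b (eq n)) = Set.range b := by
      rw [show (fun n => b (eq n)) = b ∘ eq from rfl, eq.surjective.range_comp]
    rw [h1, b.dense_span]
  let B : HilbertBasis ℕ ℂ H := HilbertBasis.mk hv hsp
  let e : H ≃L[ℂ] lp (fun _ : ℕ => ℂ) 2 := B.repr.toContinuousLinearEquiv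
  have he : ∀ x j, (e x) j = ⟪B j, x⟫_ℂ := fun x j => B.repr_apply_apply x j
  obtain ⟨G, hG, hmono, hid, hap⟩ := exists_G
  let A₀ := TT G hG hmono
  let Φ := e.symm.conjContinuousAlgEquiv
  have hΦ : ∀ x : H, Φ A₀ x = e.symm (A₀ (e x)) := fun x => rfl
  have hspec : spectrum ℂ (Φ A₀) = Metric.closedBall (1 / 2 : ℂ) (1 / 2) := by
    rw [← spectrum_eq hG hmono hid]
    exact AlgEquiv.spectrum_eq Φ.toAlgEquiv A₀
  -- the closed invariant subspaces of `Φ A₀`
  have hlat : ∀ M : Submodule ℂ H, IsClosed (M : Set H) →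
      ((∀ x ∈ M, Φ A₀ x ∈ M) ↔ M = ⊥ ∨ ∃ n : ℕ, ∀ x, x ∈ M ↔ ∀ j < n, ⟪B j, x⟫_ℂ = 0) := by
    intro M hM
    set W : Submodule ℂ HH := M.comap (e.symm : lp (fun _ : ℕ => ℂ) 2 →ₗ[ℂ] H) with hW
    have hmem : ∀ y, y ∈ W ↔ e.symm y ∈ M := fun y => Iff.rfl
    have hWc : IsClosed (W : Set HH) := hM.preimage e.symm.continuous
    have h1 : (∀ x ∈ M, Φ A₀ x ∈ M) ↔ ∀ y ∈ W, A₀ y ∈ W := by
      constructor
      · intro h y hy
        have h2 := h (e.symm y) hy
        rw [hΦ, e.apply_symm_apply] at h2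
        exact h2
      · intro h x hx
        rw [hΦ]
        apply h
        rw [hmem, e.symm_apply_apply]
        exact hx
    rw [h1, lat hG hmono hap W hWc]
    constructor
    · rintro (h | ⟨n, hn⟩)
      · left
        rw [Submodule.eq_bot_iff] at h ⊢
        intro x hx
        have h2 := h (e x) (by rw [hmem, e.symm_apply_apply]; exact hx)
        exact (map_eq_zero_iff e e.injective).1 h2
      · right
        refine ⟨n, fun x => ?_⟩
        have h2 := hn (e x)
        rw [hmem, e.symm_apply_apply] at h2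
        rw [h2]
        unfold Low
        simp only [he]
    · rintro (h | ⟨n, hn⟩)
      · left
        rw [Submodule.eq_bot_iff] at h ⊢
        intro y hy
        have h2 := h (e.symm y) hy
        exact (map_eq_zero_iff e.symm e.symm.injective).1 h2
      · right
        refine ⟨n, fun y => ?_⟩
        rw [hmem, hn]
        unfold Low
        simp only [← he, e.apply_symm_apply]
  -- the operator
  have hr2 : (2 * r : ℂ) ≠ 0 := by
    have : (r : ℂ) ≠ 0 := by exact_mod_cast hr.ne'
    simpa using this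
  let A : H →L[ℂ] H := algebraMap ℂ (H →L[ℂ] H) (c - r) + (2 * r : ℂ) • Φ A₀
  have hA : ∀ x, A x = (c - r) • x + (2 * r : ℂ) • Φ A₀ x := by
    intro x
    change (algebraMap ℂ (H →L[ℂ] H) (c - r)) x + ((2 * r : ℂ) • Φ A₀) x = _
    rw [Algebra.algebraMap_eq_smul_one]
    rfl
  have hinv : ∀ M : Submodule ℂ H, (∀ x ∈ M, A x ∈ M) ↔ ∀ x ∈ M, Φ A₀ x ∈ M := by
    intro M
    constructor
    · intro h x hx
      have h1 := h x hx
      rw [hA] at h1
      have h2 := M.smul_mem (2 * r : ℂ)⁻¹ (M.sub_mem h1 (M.smul_mem (c - r) hx))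
      rwa [add_sub_cancel_left, smul_smul, inv_mul_cancel₀ hr2, one_smul] at h2
    · intro h x hx
      rw [hA]
      exact M.add_mem (M.smul_mem _ hx) (M.smul_mem _ (h x hx))
  have hlatA : ∀ M : Submodule ℂ H, IsClosed (M : Set H) →
      ((∀ x ∈ M, A x ∈ M) ↔ M = ⊥ ∨ ∃ n : ℕ, ∀ x, x ∈ M ↔ ∀ j < n, ⟪B j, x⟫_ℂ = 0) :=
    fun M hM => (hinv M).trans (hlat M hM)
  refine ⟨A, B, hlatA, ?_, ?_⟩
  · intro M N hM hN hMi hNi
    rcases (hlatA M hM).1 hMi with h1 | ⟨n, h1⟩
    · left; rw [h1]; exact bot_le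
    · rcases (hlatA N hN).1 hNi with h2 | ⟨k, h2⟩
      · right; rw [h2]; exact bot_le
      · rcases le_total n k with h | h
        · right
          intro x hx
          rw [h1]; rw [h2] at hx
          exact fun j hj => hx j (by omega)
        · left
          intro x hx
          rw [h2]; rw [h1] at hx
          exact fun j hj => hx j (by omega)
  · have h1 : spectrum ℂ A = {c - (r : ℂ)} + spectrum ℂ ((2 * r : ℂ) • Φ A₀) :=
      (spectrum.singleton_add_eq ((2 * r : ℂ) • Φ A₀) (c - (r : ℂ))).symm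
    have h2 : spectrum ℂ ((2 * r : ℂ) • Φ A₀) = (2 * r : ℂ) • spectrum ℂ (Φ A₀) :=
      spectrum.unit_smul_eq_smul (Φ A₀) (Units.mk0 (2 * r : ℂ) hr2)
    rw [h1, h2, hspec, smul_closedBall' hr2, singleton_add_closedBall]
    congr 1
    · rw [smul_eq_mul]
      ring
    · rw [norm_mul, Complex.norm_real, Real.norm_eq_abs, abs_of_pos hr]
      norm_num
      ring

end Pool.Agent.Results.MP_546dcb_an.DiscSpectrum
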